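import Pool.Agent.Helper78.KD.FDefs

/-!
# Continuity of the variance constant (block F2 of KD)
-/

set_option autoImplicit false

namespace Pool.Agent.Helper4.KDF

open MeasureTheory Set Filter Topology H44TX Pool.Agent.Helper78.KD

/-- numerator and denominator of a rational power -/
theorem numden {θ : ℝ} (hθ : 1 < θ) {d : ℕ} {r : ℚ} (hr : (r : ℝ) = θ ^ d) :
    0 < (r.num : ℝ) ∧ 0 < (r.den : ℝ) ∧ (r.den : ℝ) / r.num = θ⁻¹ ^ d := by
  have h0 : (0 : ℝ) < θ ^ d := by positivity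
  have h1 : (0 : ℚ) < r := by
    have : (0 : ℝ) < (r : ℝ) := by rw [hr]; exact h0
    exact_mod_cast this
  have h2 : 0 < r.num := Rat.num_pos.2 h1
  have h3 : 0 < r.den := r.den_pos
  have h4 : (0 : ℝ) < (r.num : ℝ) := by exact_mod_cast h2
  have h5 : (0 : ℝ) < (r.den : ℝ) := by exact_mod_cast h3
  refine ⟨h4, h5, ?_⟩
  have h6 : (r : ℝ) = (r.num : ℝ) / r.den := by
    conv_lhs => rw [← Rat.num_div_den r]
    push_cast
    rfl
  rw [inv_pow, ← hr, h6, inv_div]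

/-- integer multiples preserve the integral over a period -/
theorem int_mul {F : ℝ → ℝ} (hF : Function.Periodic F 1) {m : ℕ} (hm : 0 < m)
    (hI : ∀ a b : ℝ, IntervalIntegrable F volume a b) :
    ∫ t in (0 : ℝ)..1, F ((m : ℝ) * t) = ∫ t in (0 : ℝ)..1, F t := by
  have hm0 : (m : ℝ) ≠ 0 := by exact_mod_cast hm.ne'
  have h2 : ∀ n : ℕ, ∫ t in (0 : ℝ)..(n : ℝ), F t = n * ∫ t in (0 : ℝ)..1, F t := by
    intro n
    induction n with
    | zero => simp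
    | succ n ih =>
      have h5 : ∫ t in (0 : ℝ)..((n + 1 : ℕ) : ℝ), F t
          = (∫ t in (0 : ℝ)..(n : ℝ), F t) + ∫ t in (n : ℝ)..(n + 1), F t := by
        rw [intervalIntegral.integral_add_adjacent_intervals (hI _ _) (hI _ _)]
        congr 1
        push_cast; ring
      have h6 := hF.intervalIntegral_add_eq (n : ℝ) 0
      rw [zero_add] at h6
      rw [h5, ih, h6]
      push_cast
      ring
  have h3 := intervalIntegral.integral_comp_mul_left (a := 0) (b := 1) (fun t => F t) hm0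
  simp only [mul_zero, mul_one, smul_eq_mul] at h3
  rw [h3, h2 m, ← mul_assoc, inv_mul_cancel₀ hm0, one_mul]

theorem rho_le {θ : ℝ} (hθ : 1 < θ) {φ : ℝ → ℝ} (h : IsBV φ) (d : ℕ) :
    |rho θ φ d| ≤ 5 * θ⁻¹ ^ d := by
  by_cases hr : ∃ r : ℚ, (r : ℝ) = θ ^ d
  · obtain ⟨r, hr⟩ := hr
    obtain ⟨hp, hq, he⟩ := numden hθ hr
    rw [rho_of_eq φ hr, ← he]
    have h1 := lag_bound h 0 r.den 0 r.num 1 hq hp one_pos
    simp only [zero_add, div_one, mul_one] at h1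
    have h2 : ∫ t in (0 : ℝ)..1, φ ((r.num : ℝ) * t) * φ ((r.den : ℝ) * t)
        = ∫ y in (0 : ℝ)..1, φ ((r.den : ℝ) * y) * φ ((r.num : ℝ) * y) := by
      congr 1
      funext t
      ring
    rw [h2]
    refine h1.trans ?_
    have h3 : (1 : ℝ) ≤ r.den := by exact_mod_cast r.den_pos
    have h4 : 3 / (r.num : ℝ) ≤ 3 * ((r.den : ℝ) / r.num) := by
      rw [mul_div_assoc', div_le_div_iff_of_pos_right hp]
      linarith
    linarith
  · have : rho θ φ d = 0 := by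
      unfold rho
      rw [dif_neg hr]
    rw [this, abs_zero]
    have : 0 < θ⁻¹ := by positivity
    positivity

theorem rho_sub {θ : ℝ} (hθ : 1 < θ) {φ ψ : ℝ → ℝ} (h : IsBV φ) (h' : IsBV ψ) (d : ℕ) :
    |rho θ φ d - rho θ ψ d| ≤ 2 * ∫ t in (0 : ℝ)..1, |φ t - ψ t| := by
  by_cases hr : ∃ r : ℚ, (r : ℝ) = θ ^ d
  · obtain ⟨r, hr⟩ := hr
    obtain ⟨hp, hq, he⟩ := numden hθ hr
    rw [rho_of_eq φ hr, rho_of_eq ψ hr]
    obtain ⟨p, hp1⟩ : ∃ p : ℕ, (r.num : ℤ) = p := ⟨r.num.toNat, by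
      have : 0 < r.num := by exact_mod_cast hp
      omega⟩
    have hp2 : (r.num : ℝ) = (p : ℝ) := by exact_mod_cast congrArg (Int.cast : ℤ → ℝ) hp1
    rw [hp2] at hp ⊢
    have hp3 : 0 < p := by exact_mod_cast hp
    have hq3 : 0 < r.den := r.den_pos
    have hmul : ∀ a b : ℝ, |a| ≤ 1 → |b| ≤ 1 → |a * b| ≤ 1 := by
      intro a b ha hb
      rw [abs_mul]
      calc |a| * |b| ≤ 1 * 1 := mul_le_mul ha hb (abs_nonneg _) (by norm_num)
        _ = 1 := by norm_num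
    have hmp : ∀ f : ℝ → ℝ, IsBV f → ∀ k : ℝ, Measurable fun t => f (k * t) := fun f hf k =>
      hf.meas.comp (measurable_const.mul measurable_id)
    have hI1 : IntervalIntegrable (fun t => φ ((p : ℝ) * t) * φ ((r.den : ℝ) * t)) volume 0 1 :=
      intInt_of_bdd ((hmp φ h _).mul (hmp φ h _)) (C := 1) (fun x => hmul _ _ (h.bdd _) (h.bdd _)) _ _
    have hI2 : IntervalIntegrable (fun t => ψ ((p : ℝ) * t) * ψ ((r.den : ℝ) * t)) volume 0 1 :=
      intInt_of_bdd ((hmp ψ h' _).mul (hmp ψ h' _)) (C := 1)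
        (fun x => hmul _ _ (h'.bdd _) (h'.bdd _)) _ _
    let F : ℝ → ℝ := fun t => |φ t - ψ t|
    have hFm : Measurable F := (h.meas.sub h'.meas).norm
    have hFb : ∀ x, |F x| ≤ 2 := by
      intro x
      simp only [F, abs_abs]
      have := abs_sub (φ x) (ψ x)
      have h1 := h.bdd x
      have h2 := h'.bdd x
      linarith
    have hFI : ∀ a b : ℝ, IntervalIntegrable F volume a b := fun a b => intInt_of_bdd hFm hFb a b
    have hFp : Function.Periodic F 1 := by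
      intro t
      simp only [F]
      rw [h.per t, h'.per t]
    have hFk : ∀ k : ℝ, IntervalIntegrable (fun t => F (k * t)) volume 0 1 := fun k =>
      intInt_of_bdd (hFm.comp (measurable_const.mul measurable_id)) (C := 2) (fun x => hFb _) _ _
    rw [← intervalIntegral.integral_sub hI1 hI2]
    have h1 : ∀ t, |φ ((p : ℝ) * t) * φ ((r.den : ℝ) * t) - ψ ((p : ℝ) * t) * ψ ((r.den : ℝ) * t)|
        ≤ F ((p : ℝ) * t) + F ((r.den : ℝ) * t) := by
      intro t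
      have e1 : φ ((p : ℝ) * t) * φ ((r.den : ℝ) * t) - ψ ((p : ℝ) * t) * ψ ((r.den : ℝ) * t)
          = (φ ((p : ℝ) * t) - ψ ((p : ℝ) * t)) * φ ((r.den : ℝ) * t)
            + ψ ((p : ℝ) * t) * (φ ((r.den : ℝ) * t) - ψ ((r.den : ℝ) * t)) := by ring
      rw [e1]
      refine (abs_add_le _ _).trans ?_
      rw [abs_mul, abs_mul]
      have h2 : |φ ((p : ℝ) * t) - ψ ((p : ℝ) * t)| * |φ ((r.den : ℝ) * t)|
          ≤ |φ ((p : ℝ) * t) - ψ ((p : ℝ) * t)| * 1 :=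
        mul_le_mul_of_nonneg_left (h.bdd _) (abs_nonneg _)
      have h3 : |ψ ((p : ℝ) * t)| * |φ ((r.den : ℝ) * t) - ψ ((r.den : ℝ) * t)|
          ≤ 1 * |φ ((r.den : ℝ) * t) - ψ ((r.den : ℝ) * t)| :=
        mul_le_mul_of_nonneg_right (h'.bdd _) (abs_nonneg _)
      simp only [F]
      linarith
    calc |∫ t in (0 : ℝ)..1, (φ ((p : ℝ) * t) * φ ((r.den : ℝ) * t)
          - ψ ((p : ℝ) * t) * ψ ((r.den : ℝ) * t))|
        ≤ ∫ t in (0 : ℝ)..1, |φ ((p : ℝ) * t) * φ ((r.den : ℝ) * t)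
          - ψ ((p : ℝ) * t) * ψ ((r.den : ℝ) * t)| :=
          intervalIntegral.abs_integral_le_integral_abs (by norm_num)
      _ ≤ ∫ t in (0 : ℝ)..1, (F ((p : ℝ) * t) + F ((r.den : ℝ) * t)) :=
          intervalIntegral.integral_mono_on (by norm_num) (hI1.sub hI2).abs
            ((hFk _).add (hFk _)) (fun t _ => h1 t)
      _ = 2 * ∫ t in (0 : ℝ)..1, F t := by
          rw [intervalIntegral.integral_add (hFk _) (hFk _), int_mul hFp hp3 hFI,
            int_mul hFp hq3 hFI]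
          ring
  · have h1 : ∀ f : ℝ → ℝ, rho θ f d = 0 := by
      intro f
      unfold rho
      rw [dif_neg hr]
    rw [h1, h1, sub_zero, abs_zero]
    have : 0 ≤ ∫ t in (0 : ℝ)..1, |φ t - ψ t| :=
      intervalIntegral.integral_nonneg (by norm_num) (fun t _ => abs_nonneg _)
    positivity

theorem geo_summable {θ : ℝ} (hθ : 1 < θ) (C : ℝ) :
    Summable fun d : ℕ => C * θ⁻¹ ^ (d + 1) := by
  have h0 : (0 : ℝ) ≤ θ⁻¹ := by positivity
  have h1 : θ⁻¹ < 1 := inv_lt_one_of_one_lt₀ hθ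
  exact ((summable_nat_add_iff 1).2 (summable_geometric_of_lt_one h0 h1)).mul_left C

theorem rho_summable {θ : ℝ} (hθ : 1 < θ) {φ : ℝ → ℝ} (h : IsBV φ) :
    Summable fun d : ℕ => rho θ φ (d + 1) :=
  Summable.of_norm_bounded (geo_summable hθ 5) (fun d => by
    rw [Real.norm_eq_abs]; exact rho_le hθ h (d + 1))

theorem geo_sum {θ : ℝ} (hθ : 1 < θ) : ∑' d : ℕ, θ⁻¹ ^ (d + 1) = 1 / (θ - 1) := by
  have h0 : (0 : ℝ) ≤ θ⁻¹ := by positivity
  have h1 : θ⁻¹ < 1 := inv_lt_one_of_one_lt₀ hθ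
  have h2 : ∀ d : ℕ, θ⁻¹ ^ (d + 1) = θ⁻¹ * θ⁻¹ ^ d := fun d => pow_succ' _ _
  simp only [h2]
  rw [tsum_mul_left, tsum_geometric_of_lt_one h0 h1]
  have h3 : (0 : ℝ) < θ - 1 := by linarith
  have h4 : θ ≠ 0 := by positivity
  rw [← one_div, ← one_div]
  have h5 : (1 - 1 / θ) = (θ - 1) / θ := by field_simp
  rw [h5]
  field_simp

theorem sig_le {θ : ℝ} (hθ : 1 < θ) {φ : ℝ → ℝ} (h : IsBV φ) : |sig θ φ| ≤ 10 * θ / (θ - 1) := by
  have h1 : |rho θ φ 0| ≤ 5 := by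
    have := rho_le hθ h 0
    simpa using this
  have h2 : |∑' d : ℕ, rho θ φ (d + 1)| ≤ 5 * (1 / (θ - 1)) := by
    rw [← geo_sum hθ, ← tsum_mul_left, ← Real.norm_eq_abs]
    refine tsum_of_norm_bounded (geo_summable hθ 5).hasSum (fun d => ?_)
    rw [Real.norm_eq_abs]
    exact rho_le hθ h (d + 1)
  have h3 : (0 : ℝ) < θ - 1 := by linarith
  unfold sig
  refine (abs_add_le _ _).trans ?_
  rw [abs_mul, abs_two]
  have h4 : 10 * θ / (θ - 1) = 10 + 2 * (5 * (1 / (θ - 1))) := by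
    field_simp
    ring
  linarith

theorem sig_close {θ ε : ℝ} (hθ : 1 < θ) (hε : 0 < ε) : ∃ η : ℝ, 0 < η ∧ ∀ φ ψ : ℝ → ℝ, IsBV φ →
    IsBV ψ → (∫ t in (0 : ℝ)..1, |φ t - ψ t|) ≤ η → |sig θ φ - sig θ ψ| ≤ ε := by
  have hs := geo_summable hθ 10
  have ht := hs.tendsto_sum_tsum_nat
  have hlim : ∀ᶠ D : ℕ in atTop, ∑' d : ℕ, 10 * θ⁻¹ ^ (d + 1)
      - ∑ d ∈ Finset.range D, 10 * θ⁻¹ ^ (d + 1) < ε / 4 := by
    have h1 := ht.const_sub (∑' d : ℕ, 10 * θ⁻¹ ^ (d + 1))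
    rw [sub_self] at h1
    exact h1.eventually_lt_const (by positivity)
  obtain ⟨D, hD⟩ := hlim.exists
  refine ⟨ε / (4 * (2 * D + 1)), by positivity, fun φ ψ h h' hI => ?_⟩
  set I := ∫ t in (0 : ℝ)..1, |φ t - ψ t| with hIdef
  have hI0 : 0 ≤ I := intervalIntegral.integral_nonneg (by norm_num) (fun t _ => abs_nonneg _)
  have hd : ∀ d : ℕ, |rho θ φ d - rho θ ψ d| ≤ 2 * I := fun d => rho_sub hθ h h' d
  have hd2 : ∀ d : ℕ, |rho θ φ d - rho θ ψ d| ≤ 10 * θ⁻¹ ^ d := by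
    intro d
    refine (abs_sub _ _).trans ?_
    have h1 := rho_le hθ h d
    have h2 := rho_le hθ h' d
    linarith
  have hsum : Summable fun d : ℕ => rho θ φ (d + 1) - rho θ ψ (d + 1) :=
    (rho_summable hθ h).sub (rho_summable hθ h')
  have e1 : sig θ φ - sig θ ψ = (rho θ φ 0 - rho θ ψ 0)
      + 2 * ∑' d : ℕ, (rho θ φ (d + 1) - rho θ ψ (d + 1)) := by
    unfold sig
    rw [(rho_summable hθ h).tsum_sub (rho_summable hθ h')]
    ring
  have e2 : ∑' d : ℕ, (rho θ φ (d + 1) - rho θ ψ (d + 1))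
      = ∑ d ∈ Finset.range D, (rho θ φ (d + 1) - rho θ ψ (d + 1))
        + ∑' d : ℕ, (rho θ φ (d + D + 1) - rho θ ψ (d + D + 1)) :=
    (hsum.sum_add_tsum_nat_add D).symm
  have e3 : ∑' d : ℕ, 10 * θ⁻¹ ^ (d + D + 1) < ε / 4 := by
    have := hs.sum_add_tsum_nat_add D
    linarith
  have h3 : |∑ d ∈ Finset.range D, (rho θ φ (d + 1) - rho θ ψ (d + 1))| ≤ D * (2 * I) := by
    refine (Finset.abs_sum_le_sum_abs _ _).trans ?_
    refine (Finset.sum_le_card_nsmul _ _ (2 * I) (fun d _ => hd (d + 1))).trans ?_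
    rw [Finset.card_range, nsmul_eq_mul]
  have h4 : |∑' d : ℕ, (rho θ φ (d + D + 1) - rho θ ψ (d + D + 1))|
      ≤ ∑' d : ℕ, 10 * θ⁻¹ ^ (d + D + 1) := by
    rw [← Real.norm_eq_abs]
    refine tsum_of_norm_bounded ((summable_nat_add_iff D).2 hs).hasSum (fun d => ?_)
    rw [Real.norm_eq_abs]
    exact hd2 (d + D + 1)
  have h5 : (2 * D + 1) * I ≤ ε / 4 := by
    have h6 : (0 : ℝ) < 4 * (2 * D + 1) := by positivity
    rw [le_div_iff₀ h6] at hI
    linarith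
  rw [e1]
  refine (abs_add_le _ _).trans ?_
  rw [abs_mul, abs_two, e2]
  have h7 := abs_add_le (∑ d ∈ Finset.range D, (rho θ φ (d + 1) - rho θ ψ (d + 1)))
    (∑' d : ℕ, (rho θ φ (d + D + 1) - rho θ ψ (d + D + 1)))
  have h8 := hd 0
  nlinarith [h3, h4, h5, h7, h8, e3]

end Pool.Agent.Helper4.KDF
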